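import Pool.Agent.Helper89.Vol.Goals

/-! # MP_cd13d2_co, packet V36-DENS: generic tuples are dense -/

set_option autoImplicit false

namespace Pool.Agent.Helper94.Vol.PkDENS

open Pool.Agent.Helper86.Poly Pool.Agent.Helper89.Vol Polynomial

/-- six points of the moment curve -/
noncomputable def mp (k : Fin 6) : E 3 := !₂[((k : ℕ) : ℝ), ((k : ℕ) : ℝ) ^ 2, ((k : ℕ) : ℝ) ^ 3]

theorem mom (i j : Fin 6) (h : i ≠ j) : Dt mp i j ≠ 0 := by
  intro h0
  unfold Dt W at h0
  obtain ⟨v, hv, hM⟩ := Matrix.exists_mulVec_eq_zero_iff.mpr h0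
  apply hv
  have e : ∀ k : Fin 6, v 0 + (k : ℕ) * v 1 + ((k : ℕ) : ℝ) ^ 2 * v 2 + ((k : ℕ) : ℝ) ^ 3 * v 3 +
      (if k = i then 1 else 0) * v 4 + (if k = j then 1 else 0) * v 5 = 0 := by
    intro k
    have := congrFun hM k
    simp only [Matrix.mulVec, dotProduct, Matrix.of_apply, Fin.sum_univ_succ, mp, Pi.single_apply] at this
    simpa [add_assoc, Fin.sum_univ_succ] using this
  have e0 := e 0
  have e1 := e 1
  have e2 := e 2
  have e3 := e 3
  have e4 := e 4
  have e5 := e 5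
  clear e hM h0 hv
  have : v 0 = 0 ∧ v 1 = 0 ∧ v 2 = 0 ∧ v 3 = 0 ∧ v 4 = 0 ∧ v 5 = 0 := by
    fin_cases i <;> fin_cases j <;> first
      | exact absurd rfl h
      | (norm_num [Fin.ext_iff] at e0 e1 e2 e3 e4 e5
         refine ⟨?_, ?_, ?_, ?_, ?_, ?_⟩ <;> linarith)
  obtain ⟨a, b, c, d, e, f⟩ := this
  funext k
  fin_cases k <;> simpa

/-- the segment from `x` to `y` -/
noncomputable def seg (x y : Fin 6 → E 3) (t : ℝ) : Fin 6 → E 3 := fun k => x k + t • (y k - x k)

/-- the matrix over the polynomials -/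
noncomputable def PM (x y : Fin 6 → E 3) (i j : Fin 6) : Matrix (Fin 6) (Fin 6) ℝ[X] :=
  Matrix.of fun k => ![1, C (x k 0) + X * C (y k 0 - x k 0), C (x k 1) + X * C (y k 1 - x k 1),
    C (x k 2) + X * C (y k 2 - x k 2), C ((Pi.single i 1 : Fin 6 → ℝ) k), C ((Pi.single j 1 : Fin 6 → ℝ) k)]

theorem evalPM (x y : Fin 6 → E 3) (i j : Fin 6) (t : ℝ) :
    (PM x y i j).det.eval t = Dt (seg x y t) i j := by
  rw [← coe_evalRingHom, RingHom.map_det]
  unfold Dt W
  congr 1
  ext k c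
  fin_cases c <;> simp [PM, seg]

theorem thm : G_DENS := by
  intro x δ hδ
  set P : ℝ[X] := ∏ i : Fin 6, ∏ j : Fin 6, if i = j then 1 else (PM x mp i j).det with hP
  have hP1 : P ≠ 0 := by
    intro h
    have h1 : P.eval 1 = 0 := by rw [h]; simp
    rw [hP, eval_prod, Finset.prod_eq_zero_iff] at h1
    obtain ⟨i, -, hi⟩ := h1
    rw [eval_prod, Finset.prod_eq_zero_iff] at hi
    obtain ⟨j, -, hj⟩ := hi
    by_cases hij : i = j
    · simp [hij] at hj
    · rw [if_neg hij, evalPM] at hj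
      apply mom i j hij
      rw [← hj]
      congr 1
      funext k
      simp [seg]
  obtain ⟨M, hM0, hM⟩ : ∃ M : ℝ, 0 < M ∧ ∀ k, ‖mp k - x k‖ ≤ M := by
    refine ⟨1 + ∑ k, ‖mp k - x k‖,
      add_pos_of_pos_of_nonneg one_pos (Finset.sum_nonneg fun _ _ => norm_nonneg _), fun k => ?_⟩
    have h2 : ‖mp k - x k‖ ≤ ∑ k, ‖mp k - x k‖ :=
      Finset.single_le_sum (f := fun k => ‖mp k - x k‖) (fun _ _ => norm_nonneg _)
        (Finset.mem_univ k)
    linarith
  have hinf : (Set.Ioo (0 : ℝ) (δ / M)).Infinite := Set.Ioo_infinite (by positivity)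
  obtain ⟨t, ht, htP⟩ : ∃ t ∈ Set.Ioo (0 : ℝ) (δ / M), P.eval t ≠ 0 := by
    by_contra hcon
    simp only [not_exists, not_and, not_not] at hcon
    apply hinf
    refine Set.Finite.subset (P.roots.toFinset.finite_toSet) ?_
    intro t ht
    simp only [Multiset.mem_toFinset, Finset.mem_coe]
    exact (mem_roots hP1).mpr (hcon t ht)
  refine ⟨seg x mp t, fun k => ?_, fun i j hij h0 => ?_⟩
  · have : dist (x k) (seg x mp t k) = t * ‖mp k - x k‖ := by
      rw [dist_eq_norm]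
      have : x k - seg x mp t k = -(t • (mp k - x k)) := by simp [seg]
      rw [this, norm_neg, norm_smul, Real.norm_of_nonneg ht.1.le]
    rw [this]
    calc t * ‖mp k - x k‖ ≤ t * M := mul_le_mul_of_nonneg_left (hM k) ht.1.le
      _ < δ := by rw [← lt_div_iff₀ hM0]; exact ht.2
  · apply htP
    rw [hP, eval_prod]
    apply Finset.prod_eq_zero (Finset.mem_univ i)
    rw [eval_prod]
    apply Finset.prod_eq_zero (Finset.mem_univ j)
    rw [if_neg hij, evalPM, h0]

end Pool.Agent.Helper94.Vol.PkDENS
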